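import Pool.Agent.ZES.StmtsZ

/-!
# Row AZE of squad ZES: the abstract zero estimate
-/

set_option autoImplicit false

namespace Pool.Agent.ZES.H3

open scoped BigOperators InnerProductSpace
open Pool.Agent.THS

/-- a finite-dimensional space is spanned by `n` vectors if its dimension is at most `n` -/
theorem exists_gen {X : Type} [AddCommGroup X] [Module ℂ X] (S : Submodule ℂ X) (n : ℕ)
    (hS : Module.Finite ℂ ↥S) (hn : Module.finrank ℂ ↥S ≤ n) :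
    ∃ v : Fin n → X, Submodule.span ℂ (Set.range v) = S := by
  classical
  let b := Module.finBasis ℂ ↥S
  refine ⟨fun i => if h : i.val < Module.finrank ℂ ↥S then (b ⟨i.val, h⟩ : X) else 0, ?_⟩
  apply le_antisymm
  · rw [Submodule.span_le]
    rintro _ ⟨i, rfl⟩
    show (if h : i.val < Module.finrank ℂ ↥S then (b ⟨i.val, h⟩ : X) else 0) ∈ S
    split_ifs with h
    · exact (b ⟨i.val, h⟩).2
    · exact S.zero_mem
  · intro f hf
    have h1 : (⟨f, hf⟩ : ↥S) ∈ Submodule.span ℂ (Set.range b) := by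
      rw [b.span_eq]
      exact Submodule.mem_top
    have h2 := Submodule.mem_map_of_mem (f := S.subtype) h1
    rw [Submodule.map_span] at h2
    refine Submodule.span_mono ?_ h2
    rintro _ ⟨_, ⟨i, rfl⟩, rfl⟩
    refine ⟨⟨i.val, lt_of_lt_of_le i.2 hn⟩, ?_⟩
    show (if h : i.val < Module.finrank ℂ ↥S then (b ⟨i.val, h⟩ : X) else 0) = (b i : X)
    rw [dif_pos i.2]

theorem aze (chn : ChnStmt) (gou : GouStmt) (lou : LouStmt) (esd : EsdStmt) (tnm : TnmStmt)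
    (_pwd : PwdStmt) (bnd : BndStmt) : AzeStmt := by
  intro g D hD
  obtain ⟨J, hJ⟩ := chn (D ^ g)
  refine ⟨(g * (2 ^ J * D) + 2) ^ g + 2 ^ J * D, ?_⟩
  intro V _ _ _ L χ hg hL hmul hnb hnb2 hfin Γ hLΓ F hF hFΓ hFne
  have hfD := hfin D hD
  obtain ⟨v, hv⟩ := exists_gen (TN L χ D) (D ^ g) hfD.1 hfD.2
  obtain ⟨j, hj, hst⟩ := hJ ℂ (V → ℂ) v (VanI (Γ : Set V))
  rw [hv] at hst
  have hstab : Stab (TN L χ D) (Γ : Set V) (2 ^ j) := hst
  have hES := esd V L χ hL D hmul hfD.1 hnb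
  have hm : 1 ≤ 2 ^ j := Nat.one_le_two_pow
  have hjJ : 2 ^ j ≤ 2 ^ J := Nat.pow_le_pow_right (by norm_num) hj
  obtain ⟨Z, W, hZ, hcl, hΓZ, hsep, hW, htan, hline⟩ := gou V (TN L χ D) hES Γ (2 ^ j) hm hstab
  have hAVW := lou V L χ hL Z W hcl (hLΓ.trans hΓZ) hW hline
  have hWZ : ∀ w ∈ W, w ∈ Z := by
    intro w hw
    have h := (hW w).1 hw 1
    rwa [one_smul] at h
  refine ⟨W, ?_, hAVW.span, ?_, 2 ^ j * D, Nat.mul_pos hm hD, ?_, ?_⟩
  · intro h
    obtain ⟨x, hx⟩ := hFne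
    refine (hsep F hF hFΓ x hx).1 (hWZ x ?_)
    rw [h]
    exact Submodule.mem_top
  · intro z hz
    obtain ⟨M, hM1, hM2, u, hu, huL⟩ := bnd g D (2 ^ j) hm V L χ hL hmul hnb hnb2 hfin hfD.1
      Γ Z W hZ hΓZ hWZ hAVW (fun z hz v hv => (htan z hz v).1 hv) z hz
    refine ⟨M, hM1, hM2.trans ?_, u, hu, huL⟩
    have h1 : Module.finrank ℂ ↥Wᗮ ≤ g := by
      rw [← hg]
      exact Submodule.finrank_le _
    have h2 : Module.finrank ℂ ↥Wᗮ * (2 ^ j * D) + 2 ≤ g * (2 ^ J * D) + 2 :=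
      Nat.add_le_add_right (Nat.mul_le_mul h1 (Nat.mul_le_mul_right D hjJ)) 2
    exact (Nat.pow_le_pow_left h2 g).trans (Nat.le_add_right _ _)
  · exact (Nat.mul_le_mul_right D hjJ).trans (Nat.le_add_left _ _)
  · intro v hv
    refine (htan 0 Z.zero_mem v).1 fun f hf => ?_
    refine hv f ((tnm V L χ hL).2.1 D (2 ^ j) hf.1) fun x hx w hw => ?_
    have h1 : x + w ∈ (Z : Set V) := Z.add_mem (hΓZ hx) (hWZ w hw)
    rw [hZ] at h1
    exact h1 f hf

end Pool.Agent.ZES.H3
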