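import Pool.Agent.ZES.StmtsF

/-!
# Row CHS of squad ZES: character sums
-/

set_option autoImplicit false

namespace Pool.Agent.ZES.H3

open scoped BigOperators
open Pool.Agent.THS

theorem sgn_add {g : ℕ} (b c d : Fin g → ZMod 2) : sgn b (c + d) = sgn b c * sgn b d := by
  unfold sgn
  rw [← Finset.prod_pow_eq_pow_sum, ← Finset.prod_pow_eq_pow_sum, ← Finset.prod_pow_eq_pow_sum,
    ← Finset.prod_mul_distrib]
  refine Finset.prod_congr rfl fun i _ => ?_
  have h : ∀ x y z : ZMod 2, ((-1 : ℤ)) ^ (x.val * (y + z).val) =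
      (-1) ^ (x.val * y.val) * (-1) ^ (x.val * z.val) := by decide
  exact h _ _ _

theorem sgn_shift {g : ℕ} (b c d : Fin g → ZMod 2) : sgn b c = sgn b (c + d) * sgn b d := by
  rw [← sgn_add]
  have h : c + d + d = c := by
    funext i
    show c i + d i + d i = c i
    rw [add_assoc, CharTwo.add_self_eq_zero, add_zero]
  rw [h]

theorem val_add (y z : ZMod 2) : (y.val : ℤ) + (z.val : ℤ) = ((y + z).val : ℤ) +
    2 * (((y.val : ℤ) + (z.val : ℤ) - ((y + z).val : ℤ)) / 2) := by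
  revert y z
  decide

theorem chs (prv : PrvStmt) (vtf : VtfStmt) : ChsStmt := by
  intro g τ hτ e he b i j x
  have e4 : 2 * (2 * e) = 4 * e := by ring
  obtain ⟨G, hG⟩ : ∃ G : (Fin g → ZMod 2) → ℂ, ∀ c, G c =
      vt τ (4 * e) (fun r => i r + j r + 2 * (e : ℤ) * ((c r).val : ℤ)) x := ⟨_, fun _ => rfl⟩
  obtain ⟨H, hH⟩ : ∃ H : (Fin g → ZMod 2) → ℂ, ∀ c, H c =
      vt τ (4 * e) (fun r => i r - j r + 2 * (e : ℤ) * ((c r).val : ℤ)) 0 := ⟨_, fun _ => rfl⟩
  have step : ∀ c' : Fin g → ZMod 2,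
      vt τ (2 * e) (fun r => i r + (e : ℤ) * ((c' r).val : ℤ)) x
          * vt τ (2 * e) (fun r => j r + (e : ℤ) * ((c' r).val : ℤ)) x
        = ∑ c, G (c' + c) * H c := by
    intro c'
    rw [prv g τ hτ (2 * e) (by omega) _ _ x, e4]
    refine Finset.sum_congr rfl fun c _ => ?_
    have h1 : vt τ (4 * e) (fun r => i r + (e : ℤ) * ((c' r).val : ℤ) +
        (j r + (e : ℤ) * ((c' r).val : ℤ)) + ((2 * e : ℕ) : ℤ) * ((c r).val : ℤ)) x =
        G (c' + c) := by
      rw [hG, ← (vtf g τ hτ (4 * e) (by omega)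
        (fun r => i r + j r + 2 * (e : ℤ) * (((c' + c) r).val : ℤ))).2.1
        (fun r => (((c' r).val : ℤ) + ((c r).val : ℤ) - ((c' r + c r).val : ℤ)) / 2)]
      congr 1
      funext r
      have h := val_add (c' r) (c r)
      show _ = i r + j r + 2 * (e : ℤ) * ((c' r + c r).val : ℤ) + _
      push_cast
      linear_combination (2 * (e : ℤ)) * h
    have h2 : vt τ (4 * e) (fun r => i r + (e : ℤ) * ((c' r).val : ℤ) -
        (j r + (e : ℤ) * ((c' r).val : ℤ)) + ((2 * e : ℕ) : ℤ) * ((c r).val : ℤ)) 0 = H c := by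
      rw [hH]
      congr 1
      funext r
      push_cast
      ring
    rw [h1, h2]
  have e5 : ∑ c : Fin g → ZMod 2, (sgn b c : ℂ)
        * (vt τ (2 * e) (fun r => i r + (e : ℤ) * ((c r).val : ℤ)) x
          * vt τ (2 * e) (fun r => j r + (e : ℤ) * ((c r).val : ℤ)) x) =
      ∑ c' : Fin g → ZMod 2, (sgn b c' : ℂ) * ∑ c, G (c' + c) * H c :=
    Finset.sum_congr rfl fun c' _ => by rw [step c']
  have e6 : (∑ c : Fin g → ZMod 2, (sgn b c : ℂ)
          * vt τ (4 * e) (fun r => i r + j r + 2 * (e : ℤ) * ((c r).val : ℤ)) x) =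
      ∑ c : Fin g → ZMod 2, (sgn b c : ℂ) * G c :=
    Finset.sum_congr rfl fun c _ => by rw [hG]
  have e7 : (∑ c : Fin g → ZMod 2, (sgn b c : ℂ)
          * vt τ (4 * e) (fun r => i r - j r + 2 * (e : ℤ) * ((c r).val : ℤ)) 0) =
      ∑ c : Fin g → ZMod 2, (sgn b c : ℂ) * H c :=
    Finset.sum_congr rfl fun c _ => by rw [hH]
  rw [e5, e6, e7]
  have e8 : ∀ c : Fin g → ZMod 2, ∑ c' : Fin g → ZMod 2, (sgn b c' : ℂ) * G (c' + c) =
      (sgn b c : ℂ) * ∑ c' : Fin g → ZMod 2, (sgn b c' : ℂ) * G c' := by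
    intro c
    rw [← Equiv.sum_comp (Equiv.addRight c) (fun c' => (sgn b c' : ℂ) * G c'), Finset.mul_sum]
    refine Finset.sum_congr rfl fun c' _ => ?_
    show (sgn b c' : ℂ) * G (c' + c) = (sgn b c : ℂ) * ((sgn b (c' + c) : ℂ) * G (c' + c))
    rw [sgn_shift b c' c]
    push_cast
    ring
  calc ∑ c' : Fin g → ZMod 2, (sgn b c' : ℂ) * ∑ c, G (c' + c) * H c
      = ∑ c' : Fin g → ZMod 2, ∑ c, ((sgn b c' : ℂ) * G (c' + c)) * H c := by
        refine Finset.sum_congr rfl fun c' _ => ?_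
        rw [Finset.mul_sum]
        exact Finset.sum_congr rfl fun c _ => by ring
    _ = ∑ c : Fin g → ZMod 2, (∑ c' : Fin g → ZMod 2, (sgn b c' : ℂ) * G (c' + c)) * H c := by
        rw [Finset.sum_comm]
        exact Finset.sum_congr rfl fun c _ => by rw [Finset.sum_mul]
    _ = ∑ c : Fin g → ZMod 2, (∑ c' : Fin g → ZMod 2, (sgn b c' : ℂ) * G c') *
          ((sgn b c : ℂ) * H c) := by
        refine Finset.sum_congr rfl fun c _ => ?_
        rw [e8 c]
        ring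
    _ = _ := by rw [Finset.mul_sum]

end Pool.Agent.ZES.H3
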